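import Mathlib
import Pool.Agent.helper25.B2.Sol
import Pool.Agent.helper25.B2.Block

/-! # MP_b2b189_gt (S13780), b2:BH: integral curves of `Np` through a point with `b = 0` -/

set_option autoImplicit false

namespace Pool.Agent.helper25.B2

open Set Filter Topology Asymptotics

namespace Block

variable {E : Type*} [NormedAddCommGroup E] [NormedSpace ℝ E]

/-- the derivative of a function along a vector field -/
noncomputable def BHD (X : E → E) (g : E → ℝ) (x : E) : ℝ := fderiv ℝ g x (X x)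

theorem BHD_congr {X : E → E} {g g' : E → ℝ} {W : Set E} (hW : IsOpen W)
    (h : ∀ x ∈ W, g x = g' x) {x : E} (hx : x ∈ W) : BHD X g x = BHD X g' x := by
  have h1 : g =ᶠ[𝓝 x] g' := by
    filter_upwards [hW.mem_nhds hx] with y hy using h y hy
  unfold BHD
  rw [h1.fderiv_eq]

theorem BHD_add {X : E → E} {g k : E → ℝ} {x : E} (hg : DifferentiableAt ℝ g x)
    (hk : DifferentiableAt ℝ k x) :
    BHD X (fun y => g y + k y) x = BHD X g x + BHD X k x := by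
  unfold BHD
  rw [fderiv_fun_add hg hk]; simp

theorem BHD_mul {X : E → E} {g k : E → ℝ} {x : E} (hg : DifferentiableAt ℝ g x)
    (hk : DifferentiableAt ℝ k x) :
    BHD X (fun y => g y * k y) x = BHD X g x * k x + g x * BHD X k x := by
  unfold BHD
  rw [fderiv_fun_mul hg hk]; simp; ring

theorem BHD_const_mul {X : E → E} {k : E → ℝ} {x : E} (c : ℝ)
    (hk : DifferentiableAt ℝ k x) :
    BHD X (fun y => c * k y) x = c * BHD X k x := by
  unfold BHD
  rw [fderiv_const_mul hk]; simp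

theorem BHD_smooth {X : E → E} {g : E → ℝ} {x : E} (hX : ContDiffAt ℝ (⊤ : ℕ∞) X x)
    (hg : ContDiffAt ℝ (⊤ : ℕ∞) g x) : ContDiffAt ℝ (⊤ : ℕ∞) (BHD X g) x := by
  unfold BHD
  exact (hg.fderiv_right (m := (⊤ : ℕ∞)) (by norm_cast)).clm_apply hX

theorem BHD_diff {g : E → ℝ} {x : E} (hg : ContDiffAt ℝ (⊤ : ℕ∞) g x) : DifferentiableAt ℝ g x :=
  hg.differentiableAt (by simp)

theorem BHD_diffX {g : E → E} {x : E} (hg : ContDiffAt ℝ (⊤ : ℕ∞) g x) : DifferentiableAt ℝ g x :=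
  hg.differentiableAt (by simp)

/-- commutation of the derivatives along two vector fields -/
theorem BHD_comm {X Y : E → E} {g : E → ℝ} {x : E} (hX : ContDiffAt ℝ (⊤ : ℕ∞) X x)
    (hY : ContDiffAt ℝ (⊤ : ℕ∞) Y x) (hg : ContDiffAt ℝ (⊤ : ℕ∞) g x) :
    BHD X (BHD Y g) x - BHD Y (BHD X g) x =
      fderiv ℝ g x (fderiv ℝ Y x (X x) - fderiv ℝ X x (Y x)) := by
  have h1 : ContDiffAt ℝ (⊤ : ℕ∞) (fderiv ℝ g) x := hg.fderiv_right (m := (⊤ : ℕ∞)) (by norm_cast)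
  have h2 : DifferentiableAt ℝ (fderiv ℝ g) x := h1.differentiableAt (by simp)
  have hs : IsSymmSndFDerivAt ℝ g x := hg.isSymmSndFDerivAt (by
    rw [minSmoothness_of_isRCLikeNormedField]
    exact WithTop.coe_le_coe.2 (le_top : (2 : ℕ∞) ≤ ⊤))
  have e1 : ∀ Z : E → E, ContDiffAt ℝ (⊤ : ℕ∞) Z x → ∀ V : E → E,
      BHD V (BHD Z g) x = fderiv ℝ (fderiv ℝ g) x (V x) (Z x) + fderiv ℝ g x (fderiv ℝ Z x (V x)) := by
    intro Z hZ V
    have h3 := h2.hasFDerivAt.clm_apply (BHD_diffX hZ).hasFDerivAt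
    have h4 : fderiv ℝ (BHD Z g) x = _ := h3.fderiv
    unfold BHD at h4 ⊢
    rw [h4]
    simp [add_comm]
  rw [e1 Y hY X, e1 X hX Y, hs.eq (X x) (Y x), map_sub]
  ring

variable (B : Block E)

/-- the function `om(Nm)` -/
noncomputable def BHm (x : E) : ℝ := B.om x (B.Nm x)
/-- the function `om(Np)` -/
noncomputable def BHp (x : E) : ℝ := B.om x (B.Np x)
/-- the function `om(Ne)` -/
noncomputable def BHe (x : E) : ℝ := B.om x (B.Ne x)

theorem BH_sm {x : E} (hx : x ∈ B.W) : ContDiffAt ℝ (⊤ : ℕ∞) B.BHm x :=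
  (B.smooth_om x hx).clm_apply (B.smooth_Nm x hx)
theorem BH_sp {x : E} (hx : x ∈ B.W) : ContDiffAt ℝ (⊤ : ℕ∞) B.BHp x :=
  (B.smooth_om x hx).clm_apply (B.smooth_Np x hx)
theorem BH_se {x : E} (hx : x ∈ B.W) : ContDiffAt ℝ (⊤ : ℕ∞) B.BHe x :=
  (B.smooth_om x hx).clm_apply (B.smooth_Ne x hx)

theorem BH_Nmb {x : E} (hx : x ∈ B.W) :
    BHD B.Nm B.b x = 2 * (B.b x * B.BHm x) + 2 * B.v x := by
  unfold BHD BHm
  rw [B.db x hx, B.cm_Nm x hx]; ring

theorem BH_Npb {x : E} (hx : x ∈ B.W) :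
    BHD B.Np B.b x = 2 * (B.b x * B.BHp x) := by
  unfold BHD BHp
  rw [B.db x hx, B.cm_Np x hx]; ring

theorem BH_Neb {x : E} (hx : x ∈ B.W) :
    BHD B.Ne B.b x = 2 * (B.b x * B.BHe x) := by
  unfold BHD BHe
  rw [B.db x hx, B.cm_Ne x hx]; ring

/-- The commutator `[Np, Nm]` applied to a function -/
theorem BH_comm {g : E → ℝ} {x : E} (hx : x ∈ B.W) (hg : ContDiffAt ℝ (⊤ : ℕ∞) g x) :
    BHD B.Np (BHD B.Nm g) x = BHD B.Nm (BHD B.Np g) x +
      (-(B.BHm x) * BHD B.Np g x - B.BHp x * BHD B.Nm g x + B.f x * BHD B.Ne g x) := by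
  have h1 := BHD_comm (B.smooth_Np x hx) (B.smooth_Nm x hx) hg
  rw [B.bracket x hx] at h1
  simp only [map_add, map_sub, map_smul, smul_eq_mul] at h1
  have h2 : BHD B.Np (BHD B.Nm g) x = BHD B.Nm (BHD B.Np g) x +
    (-(B.om x (B.Nm x)) * fderiv ℝ g x (B.Np x) - B.om x (B.Np x) * fderiv ℝ g x (B.Nm x) +
      B.f x * fderiv ℝ g x (B.Ne x)) := by linarith
  exact h2

/-- the function `b1 = Nm b` at points with `b = v = 0` -/
theorem BH_b1 {x : E} (hx : x ∈ B.W) (hb : B.b x = 0) (hv : B.v x = 0) :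
    BHD B.Nm B.b x = 0 ∧ BHD B.Np B.b x = 0 ∧ BHD B.Ne B.b x = 0 := by
  rw [B.BH_Nmb hx, B.BH_Npb hx, B.BH_Neb hx, hb, hv]
  simp

theorem BH_Nmb1 {x : E} (hx : x ∈ B.W) (hb : B.b x = 0) (hv : B.v x = 0) :
    BHD B.Nm (BHD B.Nm B.b) x = 2 * B.h x := by
  have db := BHD_diff (B.smooth_b x hx)
  have dm := BHD_diff (B.BH_sm hx)
  have dv := BHD_diff (B.smooth_v x hx)
  rw [BHD_congr B.isOpen_W (fun y hy => B.BH_Nmb hy) hx,
    BHD_add (g := fun y => 2 * (B.b y * B.BHm y)) (k := fun y => 2 * B.v y)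
      ((db.mul dm).const_mul 2) (dv.const_mul 2),
    BHD_const_mul (k := fun y => B.b y * B.BHm y) 2 (db.mul dm), BHD_mul db dm,
    BHD_const_mul 2 dv, (B.BH_b1 hx hb hv).1, hb]
  have h1 : BHD B.Nm B.v x = B.h x + B.om x (B.Nm x) * B.v x := B.dv_Nm x hx
  rw [h1, hv]
  ring

/-- the coefficient of `b` in `Np (Nm b)` -/
noncomputable def BHG (x : E) : ℝ :=
  2 * BHD B.Nm B.BHp x + (-2) * (B.BHm x * B.BHp x) + 2 * (B.f x * B.BHe x)

theorem BH_sG {x : E} (hx : x ∈ B.W) : ContDiffAt ℝ (⊤ : ℕ∞) B.BHG x := by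
  unfold BHG
  exact ((contDiffAt_const.mul (BHD_smooth (B.smooth_Nm x hx) (B.BH_sp hx))).add
    (contDiffAt_const.mul ((B.BH_sm hx).mul (B.BH_sp hx)))).add
    (contDiffAt_const.mul ((B.smooth_f x hx).mul (B.BH_se hx)))

theorem BH_Npb1 {x : E} (hx : x ∈ B.W) :
    BHD B.Np (BHD B.Nm B.b) x = B.BHp x * BHD B.Nm B.b x + B.b x * B.BHG x := by
  have db := BHD_diff (B.smooth_b x hx)
  have dp := BHD_diff (B.BH_sp hx)
  rw [B.BH_comm hx (B.smooth_b x hx), BHD_congr B.isOpen_W (fun y hy => B.BH_Npb hy) hx,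
    BHD_const_mul (k := fun y => B.b y * B.BHp y) 2 (db.mul dp), BHD_mul db dp,
    B.BH_Npb hx, B.BH_Neb hx]
  unfold BHG
  ring

/-- `Np Nm Nm b = 0` at points with `b = v = 0` -/
theorem BH_key {x : E} (hx : x ∈ B.W) (hb : B.b x = 0) (hv : B.v x = 0) :
    BHD B.Np (BHD B.Nm (BHD B.Nm B.b)) x = 0 := by
  have sb1 : ContDiffAt ℝ (⊤ : ℕ∞) (BHD B.Nm B.b) x := BHD_smooth (B.smooth_Nm x hx) (B.smooth_b x hx)
  have db := BHD_diff (B.smooth_b x hx)
  have db1 := BHD_diff sb1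
  have dp := BHD_diff (B.BH_sp hx)
  have dG := BHD_diff (B.BH_sG hx)
  have de := BHD_diff (B.BH_se hx)
  obtain ⟨g1, g2, g3⟩ := B.BH_b1 hx hb hv
  -- `Nm (Np b1) = 2 p h`
  have e1 : BHD B.Nm (BHD B.Np (BHD B.Nm B.b)) x = B.BHp x * (2 * B.h x) := by
    rw [BHD_congr B.isOpen_W (fun y hy => B.BH_Npb1 hy) hx,
      BHD_add (g := fun y => B.BHp y * BHD B.Nm B.b y) (k := fun y => B.b y * B.BHG y)
        (dp.mul db1) (db.mul dG), BHD_mul dp db1, BHD_mul db dG, g1, hb,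
      B.BH_Nmb1 hx hb hv]
    ring
  have e2 : BHD B.Np (BHD B.Nm B.b) x = 0 := by
    rw [B.BH_Npb1 hx, g1, hb]; ring
  -- `Ne b1 = 0`
  have e3 : BHD B.Ne (BHD B.Nm B.b) x = 0 := by
    have h1 := BHD_comm (B.smooth_Ne x hx) (B.smooth_Nm x hx) (B.smooth_b x hx)
    have h2 : fderiv ℝ B.b x = 0 := by
      ext w
      rw [B.db x hx, hb, hv]; simp
    rw [h2] at h1
    have h3 : BHD B.Nm (BHD B.Ne B.b) x = 0 := by
      rw [BHD_congr B.isOpen_W (fun y hy => B.BH_Neb hy) hx,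
        BHD_const_mul (k := fun y => B.b y * B.BHe y) 2 (db.mul de), BHD_mul db de, g1, hb]
      ring
    rw [h3] at h1
    simpa using h1
  rw [B.BH_comm hx sb1, e1, e2, e3, B.BH_Nmb1 hx hb hv]
  ring

/-- linear scalar equations -/
theorem BH_linear {y p : ℝ → ℝ} {I : Set ℝ} (hI : I.OrdConnected)
    (hy : ∀ t ∈ I, HasDerivAt y (p t * y t) t) (hp : ContinuousOn p I) {t₀ : ℝ} (ht₀ : t₀ ∈ I)
    (h0 : y t₀ = 0) : ∀ t ∈ I, y t = 0 := by
  intro t ht
  rcases le_total t₀ t with hle | hle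
  · have hsub : Icc t₀ t ⊆ I := hI.out ht₀ ht
    obtain ⟨K, hK⟩ := (isCompact_Icc.bddAbove_image (hp.norm.mono hsub))
    have h := eq_zero_of_abs_deriv_le_mul_abs_self_of_eq_zero_right (f := y)
      (f' := fun t => p t * y t) (K := K) (a := t₀) (b := t)
      (fun x hx => (hy x (hsub hx)).continuousAt.continuousWithinAt)
      (fun x hx => (hy x (hsub (Ico_subset_Icc_self hx))).hasDerivWithinAt) h0
      (fun x hx => by
        rw [norm_mul]
        apply mul_le_mul_of_nonneg_right _ (norm_nonneg _)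
        exact hK ⟨x, Ico_subset_Icc_self hx, rfl⟩)
    exact h t ⟨hle, le_rfl⟩
  · have hsub : Icc t t₀ ⊆ I := hI.out ht ht₀
    obtain ⟨K, hK⟩ := (isCompact_Icc.bddAbove_image (hp.norm.mono hsub))
    have hneg : ∀ x ∈ Icc (-t₀) (-t), -x ∈ Icc t t₀ := by
      intro x hx
      exact ⟨by linarith [hx.2], by linarith [hx.1]⟩
    have hd : ∀ x ∈ Icc (-t₀) (-t), HasDerivAt (fun x => y (-x)) (-(p (-x) * y (-x))) x := by
      intro x hx
      have h1 := hy (-x) (hsub (hneg x hx))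
      have h2 := h1.scomp x (hasDerivAt_neg x)
      simp only [smul_eq_mul, neg_mul, one_mul] at h2
      exact h2
    have h := eq_zero_of_abs_deriv_le_mul_abs_self_of_eq_zero_right (f := fun x => y (-x))
      (f' := fun x => -(p (-x) * y (-x))) (K := K) (a := -t₀) (b := -t)
      (fun x hx => (hd x hx).continuousAt.continuousWithinAt)
      (fun x hx => (hd x (Ico_subset_Icc_self hx)).hasDerivWithinAt) (by simpa using h0)
      (fun x hx => by
        rw [norm_neg, norm_mul]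
        apply mul_le_mul_of_nonneg_right _ (norm_nonneg _)
        exact hK ⟨-x, hneg x (Ico_subset_Icc_self hx), rfl⟩)
    have := h (-t) ⟨by linarith, le_rfl⟩
    simpa using this

/-- functions with zero derivative -/
theorem BH_const {y : ℝ → ℝ} {I : Set ℝ} (hI : I.OrdConnected)
    (hy : ∀ t ∈ I, HasDerivAt y 0 t) {t₀ : ℝ} (ht₀ : t₀ ∈ I) : ∀ t ∈ I, y t = y t₀ := by
  intro t ht
  have h := BH_linear (y := fun t => y t - y t₀) (p := fun _ => 0) hI
    (fun t ht => by simpa using (hy t ht).sub_const (y t₀)) continuousOn_const ht₀ (by simp) t ht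
  linarith

theorem BH_along {γ : ℝ → E} {t : ℝ} {g : E → ℝ} {X : E → E} {W : Set E} {I : Set ℝ}
    (hγ : Sol X W γ I) (ht : t ∈ I) (hg : ContDiffAt ℝ (⊤ : ℕ∞) g (γ t)) :
    HasDerivAt (fun t => g (γ t)) (BHD X g (γ t)) t :=
  (BHD_diff hg).hasFDerivAt.comp_hasDerivAt t (hγ.hasDerivAt ht)

/-- BH: along an integral curve of `Np` through a point with `b = 0`. -/
theorem block_H (B : Block E) (hA : B.A) {γ : ℝ → E} {I : Set ℝ} (hI : I.OrdConnected)
    (hγ : Sol B.Np B.W γ I) {t₀ : ℝ} (ht₀ : t₀ ∈ I) (hb : B.b (γ t₀) = 0) :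
    ∀ t ∈ I, B.b (γ t) = 0 ∧ B.v (γ t) = 0 ∧ B.h (γ t) = B.h (γ t₀) ∧ B.s (γ t) = B.s (γ t₀) ∧
      B.l (γ t) = B.l (γ t₀) := by
  have hW : ∀ t ∈ I, γ t ∈ B.W := fun t ht => hγ.mem ht
  have hb' : ∀ t ∈ I, B.b (γ t) = 0 := by
    apply BH_linear (p := fun t => 2 * B.BHp (γ t)) hI _ _ ht₀ hb
    · intro t ht
      have h1 := BH_along hγ ht (B.smooth_b _ (hW t ht))
      rw [B.BH_Npb (hW t ht)] at h1
      convert h1 using 1
      ring
    · intro t ht
      have h1 : ContinuousAt B.BHp (γ t) := (B.BH_sp (hW t ht)).continuousAt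
      have h2 : ContinuousAt (fun t => B.BHp (γ t)) t :=
        ContinuousAt.comp (g := B.BHp) h1 (hγ.hasDerivAt ht).continuousAt
      exact (continuousAt_const.mul h2).continuousWithinAt
  have hv' : ∀ t ∈ I, B.v (γ t) = 0 := fun t ht => hA.2 _ (hW t ht) (hb' t ht)
  have hs' : ∀ t ∈ I, B.s (γ t) = B.s (γ t₀) := by
    apply BH_const hI _ ht₀
    intro t ht
    have h1 := BH_along hγ ht (B.smooth_s _ (hW t ht))
    have h2 : BHD B.Np B.s (γ t) = 0 := by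
      unfold BHD
      rw [B.ds _ (hW t ht), hv' t ht, B.cm_Np _ (hW t ht)]; ring
    rwa [h2] at h1
  have hl' : ∀ t ∈ I, B.l (γ t) = B.l (γ t₀) := by
    apply BH_const hI _ ht₀
    intro t ht
    have h1 := BH_along hγ ht (B.smooth_l _ (hW t ht))
    have h2 : BHD B.Np B.l (γ t) = 0 := by
      unfold BHD
      rw [B.dl _ (hW t ht), B.ce_Np _ (hW t ht)]; ring
    rwa [h2] at h1
  have hh' : ∀ t ∈ I, BHD B.Nm (BHD B.Nm B.b) (γ t) = BHD B.Nm (BHD B.Nm B.b) (γ t₀) := by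
    apply BH_const (y := fun t => BHD B.Nm (BHD B.Nm B.b) (γ t)) hI _ ht₀
    intro t ht
    have hx := hW t ht
    have h1 := BH_along hγ ht (BHD_smooth (B.smooth_Nm _ hx) (BHD_smooth (B.smooth_Nm _ hx)
      (B.smooth_b _ hx)))
    rwa [B.BH_key hx (hb' t ht) (hv' t ht)] at h1
  intro t ht
  refine ⟨hb' t ht, hv' t ht, ?_, hs' t ht, hl' t ht⟩
  have h1 := hh' t ht
  rw [B.BH_Nmb1 (hW t ht) (hb' t ht) (hv' t ht), B.BH_Nmb1 (hW t₀ ht₀) (hb' t₀ ht₀) (hv' t₀ ht₀)] at h1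
  linarith

end Block

end Pool.Agent.helper25.B2
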