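import Mathlib
import Pool.Agent.helper25.B2.Sol
import Pool.Agent.helper25.B2.Block
import Pool.Agent.helper92.B2.BH

/-! # MP_b2b189_gt (S13780), b2:BR: Jordan points with `h = 0` -/

set_option autoImplicit false

namespace Pool.Agent.helper25.B2

open Set Filter Topology Asymptotics

namespace Block

variable {E : Type*} [NormedAddCommGroup E] [NormedSpace ℝ E]

/-- a local integral curve in an open set -/
theorem BR_curve [CompleteSpace E] {X : E → E} {W : Set E} (hW : IsOpen W) {q : E} (hq : q ∈ W)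
    (hX : ContDiffAt ℝ (⊤ : ℕ∞) X q) :
    ∃ γ : ℝ → E, γ 0 = q ∧ ∃ δ > (0 : ℝ), Sol X W γ (Ioo (-δ) δ) := by
  obtain ⟨γ, h0, ε, hε, h⟩ :=
    (hX.of_le (m := 1) (by exact WithTop.coe_le_coe.2 le_top)).exists_forall_mem_closedBall_exists_eq_forall_mem_Ioo_hasDerivAt₀ 0
  have h1 : ContinuousAt γ 0 := (h 0 ⟨by linarith, by linarith⟩).continuousAt
  have h2 : ∀ᶠ t in 𝓝 (0 : ℝ), γ t ∈ W := h1 (by rw [h0]; exact hW.mem_nhds hq)
  obtain ⟨δ, hδ, hb⟩ := Metric.eventually_nhds_iff.1 h2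
  refine ⟨γ, h0, min δ ε, lt_min hδ hε, fun t ht => ⟨?_, ?_⟩⟩
  · apply hb
    rw [Real.dist_eq, sub_zero, abs_lt]
    exact ⟨by linarith [ht.1, min_le_left δ ε], by linarith [ht.2, min_le_left δ ε]⟩
  · apply h
    exact ⟨by linarith [ht.1, min_le_right δ ε], by linarith [ht.2, min_le_right δ ε]⟩

/-- BR: at a Jordan point with `h = 0` where `u^2/|a|` is locally maximal among the Jordan points with
`h = 0` and the same `s`, `l`, one has `u = 0`. -/
theorem block_R [CompleteSpace E] (B : Block E) (hA : B.A) {q : E} (hq : q ∈ B.W) (hb : B.b q = 0)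
    (ha : B.a q ≠ 0) (hh : B.h q = 0)
    (hmax : ∀ᶠ x in 𝓝 q, B.b x = 0 → B.h x = 0 → B.s x = B.s q → B.l x = B.l q →
      B.u x ^ 2 * |B.a q| ≤ B.u q ^ 2 * |B.a x|) :
    B.u q = 0 := by
  obtain ⟨γ, h0, δ, hδ, hγ⟩ := BR_curve B.isOpen_W hq (B.smooth_Np q hq)
  have ht0 : (0 : ℝ) ∈ Ioo (-δ) δ := ⟨by linarith, hδ⟩
  have hH := block_H B hA ordConnected_Ioo hγ ht0 (by rw [h0]; exact hb)
  rw [h0] at hH
  have hcont : ContinuousAt γ 0 := (hγ.hasDerivAt ht0).continuousAt
  have hq0 : γ 0 ∈ B.W := by rw [h0]; exact hq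
  -- derivatives along the curve
  have du := BH_along hγ ht0 (B.smooth_u _ hq0)
  have da := BH_along hγ ht0 (B.smooth_a _ hq0)
  rw [h0] at du da
  have du' : BHD B.Np B.u q = - (B.om q (B.Np q) * B.u q) := by
    have := B.du_Np q hq
    unfold BHD
    rw [this, hh]; ring
  have da' : BHD B.Np B.a q = -2 * B.a q * B.om q (B.Np q) + 2 * B.u q := by
    unfold BHD
    rw [B.da q hq, B.cp_Np q hq]; ring
  rw [du'] at du
  rw [da'] at da
  -- the sign of `a`
  have key : ∀ σ : ℝ, |B.a q| = σ * B.a q → (∀ᶠ x in 𝓝 q, |B.a x| = σ * B.a x) → σ ≠ 0 →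
      B.u q = 0 := by
    intro σ hσ hσ' hσ0
    have hloc : IsLocalMax (fun t : ℝ => B.u (γ t) ^ 2 * (σ * B.a q) - B.u q ^ 2 * (σ * B.a (γ t)))
        0 := by
      have e1 : ∀ᶠ t in 𝓝 (0 : ℝ), t ∈ Ioo (-δ) δ := Ioo_mem_nhds (by linarith) hδ
      have hcont' : Tendsto γ (𝓝 0) (𝓝 q) := by
        have := hcont.tendsto
        rwa [h0] at this
      have e2 := hcont'.eventually hmax
      have e3 := hcont'.eventually hσ'
      filter_upwards [e1, e2, e3] with t h1 h2 h3
      obtain ⟨g1, -, g3, g4, g5⟩ := hH t h1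
      have h4 := h2 g1 (g3.trans hh) g4 g5
      rw [h3, hσ] at h4
      simp only [h0]
      linarith
    have hd := ((du.pow 2).mul_const (σ * B.a q)).sub ((da.const_mul σ).const_mul (B.u q ^ 2))
    have h5 := hloc.hasDerivAt_eq_zero hd
    simp only [h0] at h5
    have h6 : σ * B.u q ^ 3 = 0 := by
      have : (2 : ℕ) - 1 = 1 := rfl
      simp only [this, pow_one, Nat.cast_ofNat] at h5
      linear_combination (-1 / 2 : ℝ) * h5
    rcases mul_eq_zero.1 h6 with h7 | h7
    · exact absurd h7 hσ0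
    · exact pow_eq_zero_iff (by norm_num) |>.1 h7
  rcases lt_or_gt_of_ne ha with hneg | hpos
  · apply key (-1) (by rw [abs_of_neg hneg]; ring) _ (by norm_num)
    have : ∀ᶠ x in 𝓝 q, B.a x < 0 := (B.smooth_a q hq).continuousAt.eventually_lt_const hneg
    filter_upwards [this] with x hx
    rw [abs_of_neg hx]; ring
  · apply key 1 (by rw [abs_of_pos hpos]; ring) _ (by norm_num)
    have : ∀ᶠ x in 𝓝 q, 0 < B.a x := (B.smooth_a q hq).continuousAt.eventually_const_lt hpos
    filter_upwards [this] with x hx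
    rw [abs_of_pos hx]; ring

end Block

end Pool.Agent.helper25.B2
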