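import Pool.Agent.helper92.B2.J2a

/-! # MP_b2b189_gt, b2:J2b: there are no points with `(L - c)^2 = 0` -/

set_option autoImplicit false

namespace Pool.Agent.helper68.B2

open scoped ContDiff Topology Matrix
open Matrix Set

/-- the identity in a null frame -/
theorem J2b_one {G : M3} (h : Gᵀ = G) {z n e : V3} (hf : NFrame G z n e) :
    (1 : M3) = vecMulVec z (G *ᵥ n) + vecMulVec n (G *ᵥ z) + vecMulVec e (G *ᵥ e) := by
  have key : ∀ v : V3, (vecMulVec z (G *ᵥ n) + vecMulVec n (G *ᵥ z) + vecMulVec e (G *ᵥ e)) *ᵥ v =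
      v := by
    intro v
    conv_rhs => rw [hf.expand h v]
    rw [add_mulVec, add_mulVec]
    have h1 : ∀ a b : V3, vecMulVec a (G *ᵥ b) *ᵥ v = bil G v b • a := by
      intro a b
      ext i
      simp only [mulVec, vecMulVec_apply, dotProduct, Pi.smul_apply, smul_eq_mul, bil]
      rw [Finset.sum_mul]
      apply Finset.sum_congr rfl
      intro j _
      ring
    rw [h1, h1, h1]
  ext i j
  have h2 := congrFun (key (Pi.single j 1)) i
  rw [mulVec_single_one] at h2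
  simp only [Matrix.col_apply] at h2
  rw [h2, Matrix.one_apply, Pi.single_apply]

/-- trace in a null frame -/
theorem J2b_trace {G : M3} (h : Gᵀ = G) {z n e : V3} (hf : NFrame G z n e) (A : M3) :
    A.trace = bil G (A *ᵥ z) n + bil G (A *ᵥ n) z + bil G (A *ᵥ e) e := by
  have h1 : A = vecMulVec (A *ᵥ z) (G *ᵥ n) + vecMulVec (A *ᵥ n) (G *ᵥ z) +
      vecMulVec (A *ᵥ e) (G *ᵥ e) := by
    conv_lhs => rw [← mul_one A, J2b_one h hf]
    rw [mul_add, mul_add, mul_vecMulVec, mul_vecMulVec, mul_vecMulVec]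
  conv_lhs => rw [h1]
  rw [trace_add, trace_add, trace_vecMulVec, trace_vecMulVec, trace_vecMulVec]
  rfl

/-- the form of `A` from the frame -/
theorem J2b_form {G : M3} (h : Gᵀ = G) {z n e : V3} (hf : NFrame G z n e) {A : M3} {C : ℝ}
    (hz : A *ᵥ z = 0) (hn : A *ᵥ n = C • z) (he : A *ᵥ e = 0) :
    A = C • vecMulVec z (G *ᵥ z) := by
  have h1 : A = vecMulVec (A *ᵥ z) (G *ᵥ n) + vecMulVec (A *ᵥ n) (G *ᵥ z) +
      vecMulVec (A *ᵥ e) (G *ᵥ e) := by
    conv_lhs => rw [← mul_one A, J2b_one h hf]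
    rw [mul_add, mul_add, mul_vecMulVec, mul_vecMulVec, mul_vecMulVec]
  rw [h1, hz, hn, he, zero_vecMulVec, zero_vecMulVec, zero_add, add_zero, smul_vecMulVec]

namespace Geo
variable (S : Geo)

/-- the traceless part -/
noncomputable def J2b_A (x : E4) : M3 := S.L x - ((S.L x).trace / 3) • (1 : M3)

/-- the set of points with `A^2 = 0` -/
def J2b_Z : Set E4 := {x | x ≠ 0 ∧ S.J2b_A x * S.J2b_A x = 0}

/-- the function to be maximised -/
noncomputable def J2b_f (x : E4) : ℝ :=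
  (S.lam x ⬝ᵥ S.lam x) / |(S.J2b_A x * (S.G x)⁻¹).trace|

/-- values of `f` in a frame -/
theorem J2b_val {x : E4} (hx : x ≠ 0) {z n e : V3} (hf : NFrame (S.G x) z n e) {C α : ℝ}
    (hz : S.J2b_A x *ᵥ z = 0) (hn : S.J2b_A x *ᵥ n = C • z) (he : S.J2b_A x *ᵥ e = 0)
    (hl : S.lam x = α • z) :
    S.J2b_f x = α ^ 2 / |C| ∧ (S.J2b_A x * (S.G x)⁻¹).trace = C * (z ⬝ᵥ z) ∧ 0 < z ⬝ᵥ z := by
  have hdet : IsUnit (S.G x).det := isUnit_iff_ne_zero.2 (S.det_neg x hx).ne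
  have h1 := J2b_form (S.symm x hx) hf hz hn he
  have hz0 : z ≠ 0 := by
    rintro rfl
    have := hf.zn
    unfold bil at this
    simp at this
  have hzz : 0 < z ⬝ᵥ z := by
    have h2 : 0 ≤ z ⬝ᵥ z := by
      unfold dotProduct
      exact Finset.sum_nonneg fun i _ => mul_self_nonneg (z i)
    rcases h2.lt_or_eq with h3 | h3
    · exact h3
    · exact absurd (dotProduct_self_eq_zero.1 h3.symm) hz0
  have h2 : (S.J2b_A x * (S.G x)⁻¹).trace = C * (z ⬝ᵥ z) := by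
    rw [h1, smul_mul_assoc, vecMulVec_mul, trace_smul, trace_vecMulVec, smul_eq_mul]
    congr 1
    have h3 : (S.G x *ᵥ z) ᵥ* (S.G x)⁻¹ = z := by
      have h4 : S.G x *ᵥ z = z ᵥ* S.G x := by
        conv_lhs => rw [← S.symm x hx]
        rw [mulVec_transpose]
      rw [h4, vecMul_vecMul, Matrix.mul_nonsing_inv _ hdet, vecMul_one]
    rw [h3]
  refine ⟨?_, h2, hzz⟩
  unfold J2b_f
  rw [h2, hl, smul_dotProduct, dotProduct_smul, smul_eq_mul, smul_eq_mul, abs_mul,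
    abs_of_pos hzz]
  have h3 := hzz.ne'
  rw [← mul_assoc, mul_div_mul_right _ _ h3, sq]

theorem J2b_smA {x : E4} (hx : x ≠ 0) : ContDiffAt ℝ 1 S.J2b_A x := by
  have h1 : ContDiffAt ℝ 1 S.L x := (S.smL.contDiffAt hx).of_le (by norm_cast)
  have h2 := contDiffAt_trace h1
  unfold J2b_A
  exact h1.sub ((h2.div_const 3).smul contDiffAt_const)

theorem J2b_cont {x : E4} (hx : x ≠ 0) (h0 : (S.J2b_A x * (S.G x)⁻¹).trace ≠ 0) :
    ContinuousAt S.J2b_f x := by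
  have hl : ContDiffAt ℝ 1 S.lam x := (S.smlam.contDiffAt hx).of_le (by norm_cast)
  have hG : ContDiffAt ℝ 1 S.G x := (S.smG.contDiffAt hx).of_le (by norm_cast)
  have h1 := (contDiffAt_dotProduct hl hl).continuousAt
  have h2 := contDiffAt_inv hG (S.det_neg x hx).ne
  have h3 := (contDiffAt_trace ((S.J2b_smA hx).mul h2)).continuousAt
  unfold J2b_f
  exact h1.div h3.abs (abs_ne_zero.2 h0)

theorem J2b_homA {t : ℝ} (ht : 0 < t) (x : E4) : S.J2b_A (t • x) = S.J2b_A x := by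
  unfold J2b_A
  rw [S.homL t ht]

theorem J2b_homf {t : ℝ} (ht : 0 < t) (x : E4) : S.J2b_f (t • x) = S.J2b_f x := by
  unfold J2b_f
  rw [S.J2b_homA ht, S.homG t ht, S.homlam t ht]

/-- points of `Z` -/
theorem J2b_pt (hNC : S.NC) (R : Roots S) {x : E4} (h : x ∈ S.J2b_Z) :
    ∃ (ε : ℝ) (z n e : V3) (β θ : ℝ), (ε = 1 ∨ ε = -1) ∧ NFrame (S.G x) z n e ∧
      S.J2b_A x *ᵥ z = 0 ∧ S.J2b_A x *ᵥ e = 0 ∧ S.J2b_A x *ᵥ n = ε • z ∧
      S.lam x = β • z ∧ S.Lam x *ᵥ z = θ • z ∧ β ^ 2 - ε * θ ≠ 0 := by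
  obtain ⟨ε, z, n, e, β, θ, hε, hf, hz, he, hn, hl, hθz, -, hne⟩ := S.J2_point hNC R h.1 h.2
  refine ⟨ε, z, n, e, β, θ, hε, hf, ?_, ?_, ?_, hl, hθz, hne⟩
  · unfold J2b_A
    rw [sub_mulVec, smul_mulVec, one_mulVec, hz, sub_self]
  · unfold J2b_A
    rw [sub_mulVec, smul_mulVec, one_mulVec, he, sub_self]
  · unfold J2b_A
    rw [sub_mulVec, smul_mulVec, one_mulVec, hn]; abel

theorem J2b_max (hNC : S.NC) (R : Roots S) (hne : S.J2b_Z.Nonempty) :
    ∃ p ∈ S.J2b_Z, ∀ y ∈ S.J2b_Z, S.J2b_f y ≤ S.J2b_f p := by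
  apply exists_max_cone S.J2b_Z (fun x hx => hx.1) _ _ hne
  · intro x hx
    obtain ⟨ε, z, n, e, β, θ, hε, hf, hz, he, hn, hl, -, -⟩ := S.J2b_pt hNC R hx
    obtain ⟨-, h2, h3⟩ := S.J2b_val hx.1 hf hz hn he hl
    apply (S.J2b_cont hx.1 _).continuousWithinAt
    rw [h2]
    rcases hε with rfl | rfl
    · linarith [h3.ne']
    · have := h3.ne'
      intro h4
      apply this
      linarith
  · intro x _ t ht
    exact S.J2b_homf ht x
  · intro x hx hcl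
    refine ⟨hx, ?_⟩
    by_contra h1
    have h2 : ContinuousAt (fun y => S.J2b_A y * S.J2b_A y) x :=
      ((S.J2b_smA hx).mul (S.J2b_smA hx)).continuousAt
    have h3 : ∀ᶠ y in 𝓝 x, S.J2b_A y * S.J2b_A y ≠ 0 := h2.eventually_ne h1
    obtain ⟨y, hy1, hy2⟩ := ((mem_closure_iff_frequently.1 hcl).and_eventually h3).exists
    exact hy2 hy1.2
  · intro x hx t ht
    refine ⟨smul_ne_zero ht.ne' hx.1, ?_⟩
    rw [S.J2b_homA ht]
    exact hx.2

/-! ## b2:J2b -/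
theorem no_sq (hNC : S.NC) (R : Roots S) {x : E4} (hx : x ≠ 0) (c : ℝ) :
    (S.L x - c • (1 : M3)) * (S.L x - c • (1 : M3)) ≠ 0 := by
  intro hsq0
  have hne : S.J2b_Z.Nonempty := by
    refine ⟨x, hx, ?_⟩
    obtain ⟨h1, h2, h3⟩ := J2a_roots (R.fac x hx) hsq0
    have h4 := (J2a_RR3 (R.fac x hx)).1
    have h5 : (S.L x).trace / 3 = c := by rw [h4, h1, h2, h3]; ring
    unfold J2b_A
    rw [h5]; exact hsq0
  clear hsq0 hx c
  obtain ⟨p, hp, hmax⟩ := S.J2b_max hNC R hne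
  obtain ⟨ε, z₀, n₀, e₀, β, θ, hε, hf₀, hz₀, he₀, hn₀, hl₀, hθ₀, hne0⟩ := S.J2b_pt hNC R hp
  have hp0 : p ≠ 0 := hp.1
  set c : ℝ := (S.L p).trace / 3 with hc
  have hLz₀ : S.L p *ᵥ z₀ = c • z₀ := by
    unfold J2b_A at hz₀
    rw [sub_mulVec, smul_mulVec, one_mulVec, sub_eq_zero] at hz₀
    exact hz₀
  have hlz₀ : S.g p (S.lam p) z₀ = 0 := by
    unfold g
    rw [hl₀, J2a_bil_smul_left, hf₀.zz, mul_zero]
  obtain ⟨δ, hδ, γ, z, n, e, hγ0, hzz0, hnn0, hee0, H⟩ := S.null_geodesic hp0 hf₀ hLz₀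
  have hI0 : (0 : ℝ) ∈ Ioo (-δ) δ := ⟨by linarith, hδ⟩
  set B : E4 → M3 := fun y => S.L y - c • (1 : M3) with hB
  have hAB : ∀ t ∈ Ioo (-δ) δ, S.J2b_A (γ t) = B (γ t) := by
    intro t ht
    obtain ⟨-, -, -, -, -, -, -, -, h9⟩ := H t ht
    rw [hlz₀] at h9
    unfold J2b_A
    rw [h9, hB, hc]
    simp
  have dB : ∀ y, y ≠ 0 → DifferentiableAt ℝ B y := fun y hy => (S.smL.differentiableAt hy).sub_const _
  have hnabB : ∀ y, y ≠ 0 → ∀ v, S.nabE B v y = S.od y v (S.lam y) := by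
    intro y hy v
    rw [← S.main_v hy]
    unfold nabE
    have h1 : Dv B v y = Dv S.L v y := by
      unfold Dv
      rw [hB, fderiv_sub_const]
    rw [h1, hB]
    simp only [mul_sub, sub_mul, smul_mul_assoc, mul_smul_comm, mul_one, one_mul]
    abel
  have hBsa : ∀ y, y ≠ 0 → ∀ u w : V3, S.g y (B y *ᵥ u) w = S.g y u (B y *ᵥ w) := by
    intro y hy u w
    have h4 := S.g_L hy u w
    rw [hB]
    unfold g at h4 ⊢
    simp only [sub_mulVec, smul_mulVec, one_mulVec]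
    rw [sub_eq_add_neg, sub_eq_add_neg, ← neg_smul, ← neg_smul, J2a_bil_add_left,
      J2a_bil_add_right, J2a_bil_smul_left, J2a_bil_smul_right, h4]
  have hBz : ∀ t ∈ Ioo (-δ) δ, B (γ t) *ᵥ z t = 0 := by
    intro t ht
    obtain ⟨-, -, -, -, -, -, h7, -, -⟩ := H t ht
    rw [hlz₀, zero_mul, add_zero] at h7
    rw [hB]
    simp only
    rw [sub_mulVec, smul_mulVec, one_mulVec, h7, sub_self]
  have hlz : ∀ t ∈ Ioo (-δ) δ, S.g (γ t) (S.lam (γ t)) (z t) = 0 := by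
    intro t ht
    obtain ⟨-, -, -, -, -, -, -, h8, -⟩ := H t ht
    rw [h8, hlz₀]
  have hΛ : ∀ t ∈ Ioo (-δ) δ, ∃ θ' : ℝ, S.Lam (γ t) *ᵥ z t = θ' • z t := by
    intro t ht
    obtain ⟨h1, -, -, -, -, h6, h7, -, -⟩ := H t ht
    have hz0 : z t ≠ 0 := by
      intro h0
      have := h6.zn
      rw [h0] at this
      unfold bil at this
      simp at this
    exact S.F1 h1 hz0 h7
  -- the derivatives along the curve
  have dlam : ∀ t ∈ Ioo (-δ) δ, HasDerivAt (fun s => S.lam (γ s))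
      (S.Lam (γ t) *ᵥ z t - S.Gam (z t) (γ t) *ᵥ S.lam (γ t)) t := by
    intro t ht
    obtain ⟨h1, h2, -⟩ := H t ht
    have := S.along_vec (V := S.lam) h2 (S.smlam.differentiableAt h1)
    rwa [← S.Lam_mulVec] at this
  have dn : ∀ t ∈ Ioo (-δ) δ, HasDerivAt n (0 - S.Gam (z t) (γ t) *ᵥ n t) t := by
    intro t ht
    obtain ⟨-, -, -, h4, -⟩ := H t ht
    rwa [zero_sub]
  have de : ∀ t ∈ Ioo (-δ) δ, HasDerivAt e (0 - S.Gam (z t) (γ t) *ᵥ e t) t := by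
    intro t ht
    obtain ⟨-, -, -, -, h5, -⟩ := H t ht
    rwa [zero_sub]
  have dBn : ∀ t ∈ Ioo (-δ) δ, HasDerivAt (fun s => B (γ s) *ᵥ n s)
      (S.od (γ t) (z t) (S.lam (γ t)) *ᵥ n t - S.Gam (z t) (γ t) *ᵥ (B (γ t) *ᵥ n t)) t := by
    intro t ht
    obtain ⟨h1, h2, -⟩ := H t ht
    have := S.along_mulVec (A := B) h2 (dB _ h1) (dn t ht)
    rwa [hnabB _ h1, mulVec_zero, add_zero] at this
  have g0 : ∀ (y : E4) (u : V3), S.g y u 0 = 0 := by
    intro y u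
    unfold g bil; simp
  have dα : ∀ t ∈ Ioo (-δ) δ, ∀ θ' : ℝ, S.Lam (γ t) *ᵥ z t = θ' • z t →
      HasDerivAt (fun s => S.g (γ s) (S.lam (γ s)) (n s)) θ' t := by
    intro t ht θ' hθ'
    obtain ⟨h1, h2, -, -, -, h6, -⟩ := H t ht
    have := S.along_g h1 h2 (dlam t ht) (dn t ht)
    rw [g0, add_zero, hθ'] at this
    convert this using 1
    unfold g
    rw [J2a_bil_smul_left, h6.zn, mul_one]
  have dη : ∀ t ∈ Ioo (-δ) δ, HasDerivAt (fun s => S.g (γ s) (S.lam (γ s)) (e s)) 0 t := by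
    intro t ht
    obtain ⟨h1, h2, -, -, -, h6, -⟩ := H t ht
    obtain ⟨θ', hθ'⟩ := hΛ t ht
    have := S.along_g h1 h2 (dlam t ht) (de t ht)
    rw [g0, add_zero, hθ'] at this
    convert this using 1
    unfold g
    rw [J2a_bil_smul_left, h6.ze, mul_zero]
  have dC : ∀ t ∈ Ioo (-δ) δ, HasDerivAt (fun s => S.g (γ s) (B (γ s) *ᵥ n s) (n s))
      (2 * S.g (γ t) (S.lam (γ t)) (n t)) t := by
    intro t ht
    obtain ⟨h1, h2, -, -, -, h6, -⟩ := H t ht
    have := S.along_g h1 h2 (dBn t ht) (dn t ht)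
    rw [g0, add_zero, S.g_symm h1, S.g_od h1] at this
    convert this using 1
    have h7 : S.g (γ t) (z t) (n t) = 1 := h6.zn
    rw [h7]; ring
  have hη : ∀ t ∈ Ioo (-δ) δ, S.g (γ t) (S.lam (γ t)) (e t) = 0 := by
    intro t ht
    have h1 := Pool.Agent.helper25.B2.Block.BH_const ordConnected_Ioo dη hI0 t ht
    rw [h1, hγ0, hee0, hl₀]
    unfold g
    rw [J2a_bil_smul_left, hf₀.ze, mul_zero]
  have dE : ∀ t ∈ Ioo (-δ) δ, HasDerivAt (fun s => S.g (γ s) (B (γ s) *ᵥ n s) (e s)) 0 t := by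
    intro t ht
    obtain ⟨h1, h2, -, -, -, h6, -⟩ := H t ht
    have := S.along_g h1 h2 (dBn t ht) (de t ht)
    rw [g0, add_zero, S.g_symm h1, S.g_od h1] at this
    convert this using 1
    have h7 : S.g (γ t) (z t) (e t) = 0 := h6.ze
    rw [h7, hη t ht]; ring
  have hBp : B p = S.J2b_A p := by
    have := hAB 0 hI0
    rw [hγ0] at this
    exact this.symm
  have hE : ∀ t ∈ Ioo (-δ) δ, S.g (γ t) (B (γ t) *ᵥ n t) (e t) = 0 := by
    intro t ht
    have h1 := Pool.Agent.helper25.B2.Block.BH_const ordConnected_Ioo dE hI0 t ht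
    rw [h1, hγ0, hee0, hnn0, hBp, hn₀]
    unfold g
    rw [J2a_bil_smul_left, hf₀.ze, mul_zero]
  -- structure along the curve
  have hstr : ∀ t ∈ Ioo (-δ) δ, B (γ t) *ᵥ n t = S.g (γ t) (B (γ t) *ᵥ n t) (n t) • z t ∧
      B (γ t) *ᵥ e t = 0 ∧ S.lam (γ t) = S.g (γ t) (S.lam (γ t)) (n t) • z t := by
    intro t ht
    obtain ⟨h1, h2, -, -, -, h6, -, -, h9⟩ := H t ht
    have hG := S.symm _ h1
    have hBnz : S.g (γ t) (B (γ t) *ᵥ n t) (z t) = 0 := by
      rw [hBsa _ h1, hBz t ht, g0]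
    have hBez : S.g (γ t) (B (γ t) *ᵥ e t) (z t) = 0 := by
      rw [hBsa _ h1, hBz t ht, g0]
    have hBen : S.g (γ t) (B (γ t) *ᵥ e t) (n t) = 0 := by
      rw [hBsa _ h1, S.g_symm h1, hE t ht]
    have htr : (B (γ t)).trace = 0 := by
      rw [hlz₀] at h9
      rw [hB]
      simp only
      rw [trace_sub, trace_smul, trace_one, h9, hc]
      simp
    have htr2 := J2b_trace hG h6 (B (γ t))
    have hBee : S.g (γ t) (B (γ t) *ᵥ e t) (e t) = 0 := by
      rw [htr, hBz t ht] at htr2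
      have k1 : bil (S.G (γ t)) 0 (n t) = 0 := by unfold bil; simp
      have k2 : bil (S.G (γ t)) (B (γ t) *ᵥ n t) (z t) = 0 := hBnz
      rw [k1, k2] at htr2
      have : bil (S.G (γ t)) (B (γ t) *ᵥ e t) (e t) = 0 := by linarith
      exact this
    refine ⟨?_, ?_, ?_⟩
    · have k := h6.expand hG (B (γ t) *ᵥ n t)
      have k2 : bil (S.G (γ t)) (B (γ t) *ᵥ n t) (z t) = 0 := hBnz
      have k3 : bil (S.G (γ t)) (B (γ t) *ᵥ n t) (e t) = 0 := hE t ht
      rw [k2, k3, zero_smul, zero_smul, add_zero, add_zero] at k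
      exact k
    · have k := h6.expand hG (B (γ t) *ᵥ e t)
      have k1 : bil (S.G (γ t)) (B (γ t) *ᵥ e t) (n t) = 0 := hBen
      have k2 : bil (S.G (γ t)) (B (γ t) *ᵥ e t) (z t) = 0 := hBez
      have k3 : bil (S.G (γ t)) (B (γ t) *ᵥ e t) (e t) = 0 := hBee
      rw [k1, k2, k3, zero_smul, zero_smul, zero_smul, add_zero, add_zero] at k
      exact k
    · have k := h6.expand hG (S.lam (γ t))
      have k2 : bil (S.G (γ t)) (S.lam (γ t)) (z t) = 0 := hlz t ht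
      have k3 : bil (S.G (γ t)) (S.lam (γ t)) (e t) = 0 := hη t ht
      rw [k2, k3, zero_smul, zero_smul, add_zero, add_zero] at k
      exact k
  set α : ℝ → ℝ := fun t => S.g (γ t) (S.lam (γ t)) (n t) with hα
  set C : ℝ → ℝ := fun t => S.g (γ t) (B (γ t) *ᵥ n t) (n t) with hC
  have hα0 : α 0 = β := by
    rw [hα]
    simp only
    rw [hγ0, hnn0, hl₀]
    unfold g
    rw [J2a_bil_smul_left, hf₀.zn, mul_one]
  have hC0 : C 0 = ε := by
    rw [hC]
    simp only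
    rw [hγ0, hnn0, hBp, hn₀]
    unfold g
    rw [J2a_bil_smul_left, hf₀.zn, mul_one]
  have hε2 : ε * ε = 1 := by rcases hε with rfl | rfl <;> norm_num
  have hfp : S.J2b_f p = β ^ 2 := by
    rw [(S.J2b_val hp0 hf₀ hz₀ hn₀ he₀ hl₀).1]
    have : |ε| = 1 := by rcases hε with rfl | rfl <;> simp
    rw [this, div_one]
  have hdC := dC 0 hI0
  have hCpos : ∀ᶠ t in 𝓝 (0 : ℝ), 0 < ε * C t := by
    have h1 : ContinuousAt (fun t => ε * C t) 0 := hdC.continuousAt.const_mul ε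
    apply h1.eventually_const_lt
    show 0 < ε * C 0
    rw [hC0, hε2]; norm_num
  have hIoo : ∀ᶠ t in 𝓝 (0 : ℝ), t ∈ Ioo (-δ) δ := Ioo_mem_nhds (by linarith) hδ
  have hineq : ∀ᶠ t in 𝓝 (0 : ℝ), α t ^ 2 ≤ β ^ 2 * (ε * C t) := by
    filter_upwards [hCpos, hIoo] with t h1 h2
    obtain ⟨k1, k2, k3⟩ := hstr t h2
    obtain ⟨g1, -, -, -, -, g6, -⟩ := H t h2
    have hBB : B (γ t) * B (γ t) = 0 := by
      apply g6.ext (S.symm _ g1)
      · rw [← mulVec_mulVec, hBz t h2, mulVec_zero, zero_mulVec]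
      · rw [← mulVec_mulVec, k1, mulVec_smul, hBz t h2, smul_zero, zero_mulVec]
      · rw [← mulVec_mulVec, k2, mulVec_zero, zero_mulVec]
    have hmem : γ t ∈ S.J2b_Z := by
      refine ⟨g1, ?_⟩
      rw [hAB t h2]; exact hBB
    have hv := (S.J2b_val g1 g6 (C := C t) (α := α t) (by rw [hAB t h2]; exact hBz t h2)
      (by rw [hAB t h2]; exact k1) (by rw [hAB t h2]; exact k2) k3).1
    have hm := hmax _ hmem
    rw [hv, hfp] at hm
    have habs : |C t| = ε * C t := by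
      rw [← abs_of_pos h1, abs_mul]
      have : |ε| = 1 := by rcases hε with rfl | rfl <;> simp
      rw [this, one_mul]
    rw [habs, div_le_iff₀ h1] at hm
    exact hm
  have hθ0' : S.Lam (γ 0) *ᵥ z 0 = θ • z 0 := by rw [hγ0, hzz0, hθ₀]
  have hdα := dα 0 hI0 θ hθ0'
  have hβ : β = 0 := by
    have hloc : IsLocalMax (fun t => α t ^ 2 - β ^ 2 * (ε * C t)) 0 := by
      filter_upwards [hineq] with t ht
      simp only [hα0, hC0]
      have : β ^ 2 - β ^ 2 * (ε * ε) = 0 := by rw [hε2]; ring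
      linarith
    have hd := (hdα.pow 2).sub ((hdC.const_mul ε).const_mul (β ^ 2))
    have h1 := hloc.hasDerivAt_eq_zero hd
    have h2 : S.g (γ 0) (S.lam (γ 0)) (n 0) = β := hα0
    rw [h2] at h1
    have h3 : β * (θ - ε * β ^ 2) = 0 := by
      simp only [Nat.cast_ofNat] at h1
      have e1 : (2 : ℕ) - 1 = 1 := rfl
      rw [e1, pow_one, hα0] at h1
      linear_combination h1 / 2
    rcases mul_eq_zero.1 h3 with h4 | h4
    · exact h4
    · exfalso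
      apply hne0
      have : θ = ε * β ^ 2 := by linarith
      rw [this]
      have : β ^ 2 - ε * (ε * β ^ 2) = β ^ 2 * (1 - ε * ε) := by ring
      rw [this, hε2]; ring
  have hα00 : α =ᶠ[𝓝 0] fun _ => 0 := by
    filter_upwards [hineq] with t ht
    rw [hβ] at ht
    have h1 : α t ^ 2 ≤ 0 := by
      calc α t ^ 2 ≤ 0 ^ 2 * (ε * C t) := ht
        _ = 0 := by ring
    exact pow_eq_zero_iff (two_ne_zero) |>.1 (le_antisymm h1 (sq_nonneg _))
  have hθ : θ = 0 := by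
    have h1 : HasDerivAt (fun _ : ℝ => (0 : ℝ)) θ 0 := hdα.congr_of_eventuallyEq hα00.symm
    exact h1.unique (hasDerivAt_const 0 0)
  apply hne0
  rw [hβ, hθ]; ring

end Geo

end Pool.Agent.helper68.B2
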