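import Mathlib
import Pool.Agent.helper25.B2.Sol
import Pool.Agent.helper25.B2.Block

/-! # MP_b2b189_gt (S13780), b2:BT, first part -/

set_option autoImplicit false

namespace Pool.Agent.helper25.B2

open Set Filter Topology Asymptotics

namespace Block

variable {E : Type*} [NormedAddCommGroup E] [NormedSpace ℝ E]

/-- The field of the smaller eigenvalue of the block where `a, b ≥ 0`, with a positive factor. -/
noncomputable def T (B : Block E) (μ : E → ℝ) (x : E) : E :=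
  μ x • (Real.sqrt (B.a x) • B.Np x - Real.sqrt (B.b x) • B.Nm x)

/-- `u^2` is comparable to `a` -/
theorem BT_comp {X : Type*} {l : Filter X} {a u h : X → ℝ} {h₀ : ℝ} (hh : 0 < h₀)
    (ha : Tendsto a l (𝓝 0)) (hht : Tendsto h l (𝓝 h₀)) {C : ℝ}
    (hK : ∀ᶠ x in l, (u x ^ 2 - h x * a x) ^ 2 ≤ C * a x ^ 3) :
    ∀ᶠ x in l, 0 < a x → h₀ / 2 * a x ≤ u x ^ 2 ∧ u x ^ 2 ≤ 2 * h₀ * a x := by
  have h1 : Tendsto (fun x => C * a x) l (𝓝 0) := by
    have := ha.const_mul C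
    simpa using this
  have e1 : ∀ᶠ x in l, C * a x < (h₀ / 4) ^ 2 := h1.eventually_lt_const (by positivity)
  have e2 : ∀ᶠ x in l, h₀ - h₀ / 4 < h x := hht.eventually_const_lt (by linarith)
  have e3 : ∀ᶠ x in l, h x < h₀ + h₀ / 4 := hht.eventually_lt_const (by linarith)
  filter_upwards [hK, e1, e2, e3] with x k1 k2 k3 k4 hax
  have h2 : (u x ^ 2 - h x * a x) ^ 2 ≤ (h₀ / 4 * a x) ^ 2 := by
    calc _ ≤ C * a x ^ 3 := k1
      _ = (C * a x) * a x ^ 2 := by ring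
      _ ≤ (h₀ / 4) ^ 2 * a x ^ 2 := mul_le_mul_of_nonneg_right k2.le (by positivity)
      _ = _ := by ring
  have h3 := abs_le_of_sq_le_sq' h2 (by positivity)
  constructor
  · nlinarith [h3.1]
  · nlinarith [h3.2]

theorem BT_sqrt {a u c : ℝ} (hc : 0 < c) (ha : 0 < a) (hu : 0 < u) (h : c * a ≤ u ^ 2) :
    Real.sqrt c ≤ u / Real.sqrt a := by
  rw [le_div_iff₀ (Real.sqrt_pos.2 ha), ← Real.sqrt_mul hc.le]
  rw [Real.sqrt_le_left hu.le]
  exact h

theorem BT_abs {a u c : ℝ} (ha : 0 < a) (h : u ^ 2 ≤ c * a) :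
    |u| * Real.sqrt a ≤ Real.sqrt c * a := by
  have h1 : |u| ≤ Real.sqrt (c * a) := Real.abs_le_sqrt h
  have h2 : Real.sqrt (c * a) = Real.sqrt c * Real.sqrt a := Real.sqrt_mul' c ha.le
  calc |u| * Real.sqrt a ≤ Real.sqrt (c * a) * Real.sqrt a :=
        mul_le_mul_of_nonneg_right h1 (Real.sqrt_nonneg _)
    _ = Real.sqrt c * a := by rw [h2, mul_assoc, Real.mul_self_sqrt ha.le]

/-- BT from the conclusions of BK for `u, a` and `v, b`. -/
theorem BT_main (B : Block E) {q : E} (hq : q ∈ B.W) (ha : B.a q = 0)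
    (hb : B.b q = 0) (hh : 0 < B.h q) {μ : E → ℝ} {m₀ m₁ : ℝ} (hm₀ : 0 < m₀)
    (hμ : ∀ᶠ x in 𝓝 q, m₀ ≤ μ x ∧ μ x ≤ m₁) {C₁ C₂ : ℝ}
    (hK1 : ∀ᶠ x in 𝓝 q, (B.u x ^ 2 - B.h x * B.a x) ^ 2 ≤ C₁ * B.a x ^ 3)
    (hK2 : ∀ᶠ x in 𝓝 q, (B.v x ^ 2 - B.h x * B.b x) ^ 2 ≤ C₂ * B.b x ^ 3) :
    ∃ δ > 0, ∃ C : ℝ, ∀ᶠ x in 𝓝 q, 0 < B.a x → 0 < B.b x →
      |fderiv ℝ B.a x (B.T μ x)| ≤ C * B.a x ∧ |fderiv ℝ B.b x (B.T μ x)| ≤ C * B.b x ∧
      (0 < B.u x → 0 < B.v x →
        fderiv ℝ B.b x (B.T μ x) / B.b x - fderiv ℝ B.a x (B.T μ x) / B.a x ≤ -δ) ∧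
      (B.u x < 0 → B.v x < 0 →
        δ ≤ fderiv ℝ B.b x (B.T μ x) / B.b x - fderiv ℝ B.a x (B.T μ x) / B.a x) := by
  have hat : Tendsto B.a (𝓝 q) (𝓝 0) := by
    have := (B.smooth_a q hq).continuousAt.tendsto
    rwa [ha] at this
  have hbt : Tendsto B.b (𝓝 q) (𝓝 0) := by
    have := (B.smooth_b q hq).continuousAt.tendsto
    rwa [hb] at this
  have hht : Tendsto B.h (𝓝 q) (𝓝 (B.h q)) := (B.smooth_h q hq).continuousAt.tendsto
  have hm1 : 0 ≤ m₁ := by
    obtain ⟨x, hx⟩ := hμ.exists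
    linarith [hx.1, hx.2]
  -- bounds for `om(Np)`, `om(Nm)`
  have hp : Tendsto (fun x => B.om x (B.Np x)) (𝓝 q) (𝓝 (B.om q (B.Np q))) :=
    ((B.smooth_om q hq).clm_apply (B.smooth_Np q hq)).continuousAt.tendsto
  have hm : Tendsto (fun x => B.om x (B.Nm x)) (𝓝 q) (𝓝 (B.om q (B.Nm q))) :=
    ((B.smooth_om q hq).clm_apply (B.smooth_Nm q hq)).continuousAt.tendsto
  set K : ℝ := |B.om q (B.Np q)| + |B.om q (B.Nm q)| + 1 with hK
  have hK0 : 0 < K := by positivity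
  have e1 : ∀ᶠ x in 𝓝 q, |B.om x (B.Np x)| < K :=
    hp.abs.eventually_lt_const (by rw [hK]; linarith [abs_nonneg (B.om q (B.Nm q))])
  have e2 : ∀ᶠ x in 𝓝 q, |B.om x (B.Nm x)| < K :=
    hm.abs.eventually_lt_const (by rw [hK]; linarith [abs_nonneg (B.om q (B.Np q))])
  set η : ℝ := Real.sqrt (B.h q / 2) with hη
  have hη0 : 0 < η := Real.sqrt_pos.2 (by positivity)
  -- `om(T)` is small
  have hsa : Tendsto (fun x => Real.sqrt (B.a x)) (𝓝 q) (𝓝 0) := by
    have := hat.sqrt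
    rwa [Real.sqrt_zero] at this
  have hsb : Tendsto (fun x => Real.sqrt (B.b x)) (𝓝 q) (𝓝 0) := by
    have := hbt.sqrt
    rwa [Real.sqrt_zero] at this
  have hsum : Tendsto (fun x => m₁ * ((Real.sqrt (B.a x) + Real.sqrt (B.b x)) * K)) (𝓝 q) (𝓝 0) := by
    have := ((hsa.add hsb).mul_const K).const_mul m₁
    simpa using this
  have e3 : ∀ᶠ x in 𝓝 q, m₁ * ((Real.sqrt (B.a x) + Real.sqrt (B.b x)) * K) < m₀ * η / 4 :=
    hsum.eventually_lt_const (by positivity)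
  have e4 : ∀ᶠ x in 𝓝 q, m₁ * ((Real.sqrt (B.a x) + Real.sqrt (B.b x)) * K) < 1 :=
    hsum.eventually_lt_const (by norm_num)
  have eW : ∀ᶠ x in 𝓝 q, x ∈ B.W := B.isOpen_W.mem_nhds hq
  have eu := BT_comp hh hat hht hK1
  have ev := BT_comp hh hbt hht hK2
  refine ⟨m₀ * η, by positivity, 2 + 2 * m₁ * Real.sqrt (2 * B.h q), ?_⟩
  filter_upwards [e1, e2, e3, e4, eW, eu, ev, hμ] with x k1 k2 k3 k4 k5 k6 k7 k8 hax hbx
  obtain ⟨u1, u2⟩ := k6 hax
  obtain ⟨v1, v2⟩ := k7 hbx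
  set A := Real.sqrt (B.a x) with hA
  set D := Real.sqrt (B.b x) with hD
  have hA0 : 0 < A := Real.sqrt_pos.2 hax
  have hD0 : 0 < D := Real.sqrt_pos.2 hbx
  have hAA : A * A = B.a x := Real.mul_self_sqrt hax.le
  have hDD : D * D = B.b x := Real.mul_self_sqrt hbx.le
  have hμ0 : 0 < μ x := lt_of_lt_of_le hm₀ k8.1
  have hcp : B.cp x (B.T μ x) = μ x * A := by
    unfold T
    simp only [map_smul, map_sub, smul_eq_mul, B.cp_Np x k5, B.cp_Nm x k5]
    ring
  have hcm : B.cm x (B.T μ x) = -(μ x * D) := by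
    unfold T
    simp only [map_smul, map_sub, smul_eq_mul, B.cm_Np x k5, B.cm_Nm x k5]
    ring
  have hom : B.om x (B.T μ x) = μ x * (A * B.om x (B.Np x) - D * B.om x (B.Nm x)) := by
    unfold T
    simp only [map_smul, map_sub, smul_eq_mul]
    ring
  have homb : |B.om x (B.T μ x)| ≤ m₁ * ((A + D) * K) := by
    rw [hom, abs_mul, abs_of_pos hμ0]
    apply mul_le_mul k8.2 _ (abs_nonneg _) hm1
    calc |A * B.om x (B.Np x) - D * B.om x (B.Nm x)|
        ≤ |A * B.om x (B.Np x)| + |D * B.om x (B.Nm x)| := abs_sub _ _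
      _ = A * |B.om x (B.Np x)| + D * |B.om x (B.Nm x)| := by
          rw [abs_mul, abs_mul, abs_of_pos hA0, abs_of_pos hD0]
      _ ≤ A * K + D * K := add_le_add (mul_le_mul_of_nonneg_left k1.le hA0.le)
          (mul_le_mul_of_nonneg_left k2.le hD0.le)
      _ = _ := by ring
  set O := B.om x (B.T μ x) with hO
  have hO1 : |O| ≤ 1 := homb.trans k4.le
  have hO2 : |O| ≤ m₀ * η / 4 := homb.trans k3.le
  have hda : fderiv ℝ B.a x (B.T μ x) = -2 * B.a x * O + 2 * B.u x * (μ x * A) := by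
    rw [B.da x k5, hcp]
  have hdb : fderiv ℝ B.b x (B.T μ x) = 2 * B.b x * O - 2 * B.v x * (μ x * D) := by
    rw [B.db x k5, hcm]; ring
  have hua := BT_abs hax u2
  have hvb := BT_abs hbx v2
  rw [← hA] at hua
  rw [← hD] at hvb
  have hs0 : 0 ≤ Real.sqrt (2 * B.h q) := Real.sqrt_nonneg _
  have hratio : fderiv ℝ B.b x (B.T μ x) / B.b x - fderiv ℝ B.a x (B.T μ x) / B.a x =
      4 * O - 2 * μ x * (B.v x / D + B.u x / A) := by
    rw [hda, hdb, ← hAA, ← hDD]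
    field_simp
    ring
  have hb1 := abs_le.1 hO2
  refine ⟨?_, ?_, ?_, ?_⟩
  · rw [hda]
    calc |-2 * B.a x * O + 2 * B.u x * (μ x * A)|
        ≤ |-2 * B.a x * O| + |2 * B.u x * (μ x * A)| := abs_add_le _ _
      _ = 2 * B.a x * |O| + 2 * μ x * (|B.u x| * A) := by
          rw [abs_mul, abs_mul, abs_mul, abs_mul, abs_mul, abs_of_pos hax, abs_of_pos hμ0,
            abs_of_pos hA0]
          norm_num
          ring
      _ ≤ 2 * B.a x * 1 + 2 * m₁ * (Real.sqrt (2 * B.h q) * B.a x) := by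
          apply add_le_add
          · exact mul_le_mul_of_nonneg_left hO1 (by positivity)
          · apply mul_le_mul _ hua (by positivity) (by positivity)
            linarith [k8.2]
      _ = _ := by ring
  · rw [hdb]
    calc |2 * B.b x * O - 2 * B.v x * (μ x * D)|
        ≤ |2 * B.b x * O| + |2 * B.v x * (μ x * D)| := abs_sub _ _
      _ = 2 * B.b x * |O| + 2 * μ x * (|B.v x| * D) := by
          rw [abs_mul, abs_mul, abs_mul, abs_mul, abs_mul, abs_of_pos hbx, abs_of_pos hμ0,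
            abs_of_pos hD0]
          norm_num
          ring
      _ ≤ 2 * B.b x * 1 + 2 * m₁ * (Real.sqrt (2 * B.h q) * B.b x) := by
          apply add_le_add
          · exact mul_le_mul_of_nonneg_left hO1 (by positivity)
          · apply mul_le_mul _ hvb (by positivity) (by positivity)
            linarith [k8.2]
      _ = _ := by ring
  · intro hu hv
    have g1 : η ≤ B.u x / A := BT_sqrt (by positivity) hax hu u1
    have g2 : η ≤ B.v x / D := BT_sqrt (by positivity) hbx hv v1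
    rw [hratio]
    have g3 : m₀ * (2 * η) ≤ μ x * (B.v x / D + B.u x / A) :=
      mul_le_mul k8.1 (by linarith) (by positivity) hμ0.le
    nlinarith [hb1.2]
  · intro hu hv
    have g1 : η ≤ -B.u x / A := BT_sqrt (by positivity) hax (by linarith) (by rw [neg_sq]; exact u1)
    have g2 : η ≤ -B.v x / D := BT_sqrt (by positivity) hbx (by linarith) (by rw [neg_sq]; exact v1)
    rw [hratio]
    have g3 : m₀ * (2 * η) ≤ μ x * (-B.v x / D + -B.u x / A) :=
      mul_le_mul k8.1 (by linarith) (by positivity) hμ0.le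
    have g4 : μ x * (-B.v x / D + -B.u x / A) = -(μ x * (B.v x / D + B.u x / A)) := by ring
    rw [g4] at g3
    nlinarith [hb1.1]

end Block

end Pool.Agent.helper25.B2
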