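import Mathlib
import Pool.Agent.helper25.B2.Sol
import Pool.Agent.helper25.B2.Block
import Pool.Agent.helper49.B2.BK
import Pool.Agent.helper92.B2.BTaux

/-! # MP_b2b189_gt (S13780), b2:BT: drift of `log (b/a)` -/

set_option autoImplicit false

namespace Pool.Agent.helper25.B2

open Set Filter Topology Asymptotics

namespace Block

variable {E : Type*} [NormedAddCommGroup E] [NormedSpace ℝ E]

/-- BT: near a scalar point with `h > 0` the function `log (b/a)` has a drift along `T`. -/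
theorem block_T [CompleteSpace E] (B : Block E) (hA : B.A) {q : E} (hq : q ∈ B.W) (ha : B.a q = 0)
    (hb : B.b q = 0) (hh : 0 < B.h q) {μ : E → ℝ} {m₀ m₁ : ℝ} (hm₀ : 0 < m₀)
    (hμ : ∀ᶠ x in 𝓝 q, m₀ ≤ μ x ∧ μ x ≤ m₁) :
    ∃ δ > 0, ∃ C : ℝ, ∀ᶠ x in 𝓝 q, 0 < B.a x → 0 < B.b x →
      |fderiv ℝ B.a x (B.T μ x)| ≤ C * B.a x ∧ |fderiv ℝ B.b x (B.T μ x)| ≤ C * B.b x ∧
      (0 < B.u x → 0 < B.v x →
        fderiv ℝ B.b x (B.T μ x) / B.b x - fderiv ℝ B.a x (B.T μ x) / B.a x ≤ -δ) ∧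
      (B.u x < 0 → B.v x < 0 →
        δ ≤ fderiv ℝ B.b x (B.T μ x) / B.b x - fderiv ℝ B.a x (B.T μ x) / B.a x) := by
  obtain ⟨C₁, h1⟩ := block_K B hA hq ha hb hh
  have hA' : B.swap.A := ⟨hA.2, hA.1⟩
  obtain ⟨C₂, h2⟩ := block_K B.swap hA' hq hb ha hh
  exact BT_main B hq ha hb hh hm₀ hμ h1 h2

end Block

end Pool.Agent.helper25.B2
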