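import Pool.Agent.helper68.B2.Defs2
import Pool.Agent.helper98.B2.GA
import Pool.Agent.helper30.B2.LA1
import Pool.Agent.helper30.B2.LA2
import Pool.Agent.helper46.B2.GB
import Pool.Agent.helper31.B2.NG
import Pool.Agent.helper63.B2.NZ
import Pool.Agent.helper71.B2.A3
import Pool.Agent.helper71.B2.NS
import Pool.Agent.helper92.B2.BR

/-! # MP_b2b189_gt, b2:J2a: nilpotent points of rank one, pointwise -/

set_option autoImplicit false

namespace Pool.Agent.helper68.B2

open scoped ContDiff Topology Matrix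
open Matrix Set

/-! ### linear algebra -/

theorem J2a_bil_add_left (G : M3) (u v w : V3) : bil G (u + v) w = bil G u w + bil G v w := by
  unfold bil; rw [add_dotProduct]

theorem J2a_bil_add_right (G : M3) (u v w : V3) : bil G u (v + w) = bil G u v + bil G u w := by
  unfold bil; rw [mulVec_add, dotProduct_add]

theorem J2a_bil_smul_left (G : M3) (c : ℝ) (u w : V3) : bil G (c • u) w = c * bil G u w := by
  unfold bil; rw [smul_dotProduct, smul_eq_mul]

theorem J2a_bil_smul_right (G : M3) (c : ℝ) (u w : V3) : bil G u (c • w) = c * bil G u w := by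
  unfold bil; rw [mulVec_smul, dotProduct_smul, smul_eq_mul]

theorem J2a_bil_symm {G : M3} (h : Gᵀ = G) (u v : V3) : bil G u v = bil G v u := by
  unfold bil
  rw [dotProduct_comm, ← vecMul_transpose, h, dotProduct_mulVec]

/-- traces from the real roots -/
theorem J2a_RR3 {A : M3} {a b c : ℝ} (h : RR3 A a b c) :
    A.trace = a + b + c ∧ (A * A).trace = a ^ 2 + b ^ 2 + c ^ 2 := by
  have h0 := h 0
  have h1 := h 1
  have h2 := h (-1)
  have o01 : (1 : M3) 0 1 = 0 := Matrix.one_apply_ne (by decide)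
  have o02 : (1 : M3) 0 2 = 0 := Matrix.one_apply_ne (by decide)
  have o10 : (1 : M3) 1 0 = 0 := Matrix.one_apply_ne (by decide)
  have o12 : (1 : M3) 1 2 = 0 := Matrix.one_apply_ne (by decide)
  have o20 : (1 : M3) 2 0 = 0 := Matrix.one_apply_ne (by decide)
  have o21 : (1 : M3) 2 1 = 0 := Matrix.one_apply_ne (by decide)
  simp only [det_fin_three, Matrix.sub_apply, Matrix.smul_apply, Matrix.one_apply_eq, o01, o02,
    o10, o12, o20, o21, smul_eq_mul] at h0 h1 h2
  simp only [Matrix.trace, Matrix.diag, Fin.sum_univ_three, Matrix.mul_apply]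
  norm_num at h0 h1 h2
  have e1 : A 0 0 + A 1 1 + A 2 2 = a + b + c := by
    linear_combination h0 - h1 / 2 - h2 / 2
  have e2 : A 0 0 * A 1 1 + A 0 0 * A 2 2 + A 1 1 * A 2 2 - A 0 1 * A 1 0 - A 0 2 * A 2 0 -
      A 1 2 * A 2 1 = a * b + b * c + c * a := by
    linear_combination h1 / 2 - h2 / 2
  refine ⟨e1, ?_⟩
  linear_combination (A 0 0 + A 1 1 + A 2 2 + a + b + c) * e1 - 2 * e2

/-- if `(A - c)^2 = 0` all real roots are `c` -/
theorem J2a_roots {A : M3} {a b d c : ℝ} (h : RR3 A a b d)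
    (hsq : (A - c • (1 : M3)) * (A - c • (1 : M3)) = 0) : a = c ∧ b = c ∧ d = c := by
  have key : ∀ t : ℝ, (t • (1 : M3) - A).det * (t • (1 : M3) - (2 * c) • (1 : M3) + A).det =
      (t - c) ^ 6 := by
    intro t
    rw [← det_mul]
    have h1 : (t • (1 : M3) - A) * (t • (1 : M3) - (2 * c) • (1 : M3) + A) =
        ((t - c) ^ 2) • (1 : M3) - (A - c • (1 : M3)) * (A - c • (1 : M3)) := by
      simp only [sub_mul, mul_sub, mul_add, smul_mul_assoc, mul_smul_comm, mul_one, one_mul,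
        smul_sub, smul_add, smul_smul]
      module
    rw [h1, hsq, sub_zero, det_smul, det_one, mul_one, Fintype.card_fin, ← pow_mul]
  have h2 : ∀ t : ℝ, (t - a) * (t - b) * (t - d) = 0 → t = c := by
    intro t ht
    have h3 := key t
    rw [h t, ht, zero_mul] at h3
    have h4 : t - c = 0 := by
      by_contra hne
      exact pow_ne_zero 6 hne h3.symm
    linarith
  exact ⟨h2 a (by ring), h2 b (by ring), h2 d (by ring)⟩

namespace Geo
variable (S : Geo)

/-- the integral curve of `fld v` -/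
theorem J2a_curve (v : V3) {x : E4} (hx : x ≠ 0) : ∃ γ : ℝ → E4, γ 0 = x ∧
    ∀ᶠ t in 𝓝 (0 : ℝ), γ t ≠ 0 ∧ HasDerivAt γ (fld v (γ t)) t := by
  have hsm : ContDiffAt ℝ (⊤ : ℕ∞) (fun y => fld v y) x := by
    unfold fld
    fun_prop
  obtain ⟨γ, h0, δ, hδ, h⟩ := Pool.Agent.helper25.B2.Block.BR_curve
    (X := fun y => fld v y) (W := {0}ᶜ) isOpen_compl_singleton (q := x) hx hsm
  refine ⟨γ, h0, ?_⟩
  filter_upwards [Ioo_mem_nhds (show -δ < 0 by linarith) hδ] with t ht
  exact ⟨(h t ht).1, (h t ht).2⟩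

/-- second derivative test -/
theorem J2a_second {φ ψ : ℝ → ℝ} {D : ℝ} (h1 : ∀ᶠ t in 𝓝 (0 : ℝ), HasDerivAt φ (ψ t) t)
    (h2 : HasDerivAt ψ D 0) (hφ : ∀ᶠ t in 𝓝 (0 : ℝ), φ 0 ≤ φ t) (hψ : ψ 0 = 0) : 0 ≤ D := by
  by_contra hD
  push Not at hD
  have hder : deriv φ =ᶠ[𝓝 0] ψ := by
    filter_upwards [h1] with t ht using ht.deriv
  have hdd : deriv (deriv φ) 0 = D := by
    rw [hder.deriv_eq, h2.deriv]
  have hneg : deriv (fun t => -φ t) = fun t => -deriv φ t := by
    funext t; exact deriv.fun_neg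
  have hmin : IsLocalMin (fun t => -φ t) 0 := by
    apply isLocalMin_of_deriv_deriv_pos
    · rw [hneg, deriv.fun_neg, hdd]; linarith
    · rw [hneg]
      simp only
      rw [h1.self_of_nhds.deriv, hψ, neg_zero]
    · exact h1.self_of_nhds.continuousAt.neg
  have hconst : φ =ᶠ[𝓝 0] fun _ => φ 0 := by
    filter_upwards [hmin, hφ] with t ht1 ht2
    linarith
  have h3 : deriv φ =ᶠ[𝓝 0] fun _ => 0 := by
    have := hconst.deriv
    simpa using this
  have h4 : deriv (deriv φ) 0 = 0 := by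
    rw [h3.deriv_eq]; simp
  rw [hdd] at h4
  linarith

/-- the function `tr (L - c)^2` -/
theorem J2a_tr (c : ℝ) (y : E4) :
    ((S.L y - c • (1 : M3)) * (S.L y - c • (1 : M3))).trace =
      (S.L y * S.L y).trace - 2 * c * (S.L y).trace + 3 * c ^ 2 := by
  simp only [sub_mul, mul_sub, smul_mul_assoc, mul_smul_comm, mul_one, one_mul, trace_sub,
    trace_smul, smul_eq_mul, trace_one, Fintype.card_fin]
  push_cast
  ring

theorem J2a_nonneg (R : Roots S) (c : ℝ) {y : E4} (hy : y ≠ 0) :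
    0 ≤ ((S.L y - c • (1 : M3)) * (S.L y - c • (1 : M3))).trace := by
  obtain ⟨h1, h2⟩ := J2a_RR3 (R.fac y hy)
  rw [S.J2a_tr, h1, h2]
  nlinarith [sq_nonneg (R.τ y - c), sq_nonneg (R.σ₁ y - c), sq_nonneg (R.σ₂ y - c)]

/-- the second derivative of `tr (L - c)^2` -/
theorem J2a_hess (R : Roots S) (c : ℝ) {x : E4} (hx : x ≠ 0)
    (hsq : (S.L x - c • (1 : M3)) * (S.L x - c • (1 : M3)) = 0)
    (hlam : (S.L x - c • (1 : M3)) *ᵥ S.lam x = 0) (v : V3) :
    0 ≤ S.g x (S.lam x) (S.lam x) * S.g x v v + S.g x v (S.lam x) ^ 2 +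
      S.g x (S.Lam x *ᵥ v) ((S.L x - c • (1 : M3)) *ᵥ v) := by
  obtain ⟨γ, h0, hγ⟩ := J2a_curve v hx
  set f : E4 → ℝ := fun y => ((S.L y - c • (1 : M3)) * (S.L y - c • (1 : M3))).trace with hf
  set F : E4 → ℝ := fun y => S.g y ((S.L y - c • (1 : M3)) *ᵥ S.lam y) v with hF
  have dL : ∀ y, y ≠ 0 → DifferentiableAt ℝ S.L y := fun y hy => S.smL.differentiableAt hy
  have dlam : ∀ y, y ≠ 0 → DifferentiableAt ℝ S.lam y := fun y hy => S.smlam.differentiableAt hy
  have dLc : ∀ y, y ≠ 0 → DifferentiableAt ℝ (fun y => S.L y - c • (1 : M3)) y :=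
    fun y hy => (dL y hy).sub_const _
  have df : ∀ y, y ≠ 0 → DifferentiableAt ℝ f y := by
    intro y hy
    have h1 : DifferentiableAt ℝ (fun y => (S.L y - c • (1 : M3)) * (S.L y - c • (1 : M3))) y :=
      (dLc y hy).mul (dLc y hy)
    exact (Matrix.traceLinearMap (Fin 3) ℝ ℝ).toContinuousLinearMap.differentiableAt.comp y h1
  have hDf : ∀ y, y ≠ 0 → Dv f v y = 4 * F y := by
    intro y hy
    have h1 : f = fun y => ((S.L y * S.L y).trace - (2 * c) * (S.L y).trace) + 3 * c ^ 2 := by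
      funext y
      exact S.J2a_tr c y
    have d1 : DifferentiableAt ℝ (fun y => (S.L y * S.L y).trace) y :=
      (Matrix.traceLinearMap (Fin 3) ℝ ℝ).toContinuousLinearMap.differentiableAt.comp y
        ((dL y hy).mul (dL y hy))
    have d2 : DifferentiableAt ℝ (fun y => (S.L y).trace) y :=
      (Matrix.traceLinearMap (Fin 3) ℝ ℝ).toContinuousLinearMap.differentiableAt.comp y (dL y hy)
    rw [h1]
    have h2 : Dv (fun y => ((S.L y * S.L y).trace - (2 * c) * (S.L y).trace) + 3 * c ^ 2) v y =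
        Dv (fun y => (S.L y * S.L y).trace) v y - (2 * c) * Dv (fun y => (S.L y).trace) v y := by
      unfold Dv
      rw [fderiv_add_const, fderiv_fun_sub d1 (d2.const_mul _), fderiv_const_mul d2]
      rfl
    rw [h2, S.Dv_trL2 hy, S.Dv_trL hy, hF]
    simp only
    rw [sub_mulVec, smul_mulVec, one_mulVec]
    unfold g
    rw [sub_eq_add_neg (S.L y *ᵥ S.lam y), J2a_bil_add_left, ← neg_smul, J2a_bil_smul_left]
    ring
  have dV : ∀ y, y ≠ 0 → DifferentiableAt ℝ (fun y => (S.L y - c • (1 : M3)) *ᵥ S.lam y) y := by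
    intro y hy
    have := contDiffAt_mulVec (n := 1) (((S.smL.contDiffAt hy).of_le (by norm_cast)).sub
      (contDiffAt_const (c := c • (1 : M3)))) ((S.smlam.contDiffAt hy).of_le (by norm_cast))
    exact this.differentiableAt (by norm_num)
  have dF : DifferentiableAt ℝ F x := by
    have h1 := contDiffAt_bil (n := 1) ((S.smG.contDiffAt hx).of_le (by norm_cast))
      (contDiffAt_mulVec (n := 1) (((S.smL.contDiffAt hx).of_le (by norm_cast)).sub
        (contDiffAt_const (c := c • (1 : M3)))) ((S.smlam.contDiffAt hx).of_le (by norm_cast)))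
      (contDiffAt_const (c := v))
    exact h1.differentiableAt (by norm_num)
  have hDF : Dv F v x = S.g x (S.lam x) (S.lam x) * S.g x v v + S.g x v (S.lam x) ^ 2 +
      S.g x (S.Lam x *ᵥ v) ((S.L x - c • (1 : M3)) *ᵥ v) := by
    have h1 := S.nab_g hx (dV x hx) (differentiableAt_const v) v
    rw [show Dv F v x = Dv (fun y => S.g y ((S.L y - c • (1 : M3)) *ᵥ S.lam y) v) v x from rfl, h1,
      hlam]
    have h2 := S.nab_mulVec (dLc x hx) (dlam x hx) v
    rw [h2]
    have h3 : S.nabE (fun y => S.L y - c • (1 : M3)) v x = S.nabE S.L v x := by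
      unfold nabE
      have : Dv (fun y => S.L y - c • (1 : M3)) v x = Dv S.L v x := by
        unfold Dv
        rw [fderiv_sub_const]
      rw [this]
      simp only [mul_sub, sub_mul, smul_mul_assoc, mul_smul_comm, mul_one, one_mul]
      abel
    rw [h3, S.main_v hx, S.od_apply hx, ← S.Lam_mulVec]
    have hsa : ∀ u w : V3, S.g x ((S.L x - c • (1 : M3)) *ᵥ u) w =
        S.g x u ((S.L x - c • (1 : M3)) *ᵥ w) := by
      intro u w
      have h4 := S.g_L hx u w
      unfold g at h4 ⊢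
      simp only [sub_mulVec, smul_mulVec, one_mulVec]
      rw [sub_eq_add_neg, sub_eq_add_neg, ← neg_smul, ← neg_smul, J2a_bil_add_left,
        J2a_bil_add_right, J2a_bil_smul_left, J2a_bil_smul_right, h4]
    have h5 : S.g x 0 (S.nab (fun _ => v) v x) = 0 := by
      unfold g bil; simp
    rw [h5, add_zero]
    have h6 : S.g x (S.g x (S.lam x) (S.lam x) • v + S.g x v (S.lam x) • S.lam x +
        (S.L x - c • (1 : M3)) *ᵥ (S.Lam x *ᵥ v)) v =
        S.g x (S.lam x) (S.lam x) * S.g x v v + S.g x v (S.lam x) * S.g x (S.lam x) v +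
          S.g x ((S.L x - c • (1 : M3)) *ᵥ (S.Lam x *ᵥ v)) v := by
      unfold g
      rw [J2a_bil_add_left, J2a_bil_add_left, J2a_bil_smul_left, J2a_bil_smul_left]
    rw [h6, hsa, S.g_symm hx (S.lam x) v]
    ring
  rw [← hDF]
  have hcurve0 : HasDerivAt γ (fld v (γ 0)) 0 := hγ.self_of_nhds.2
  have hkey := J2a_second (φ := fun t => f (γ t)) (ψ := fun t => 4 * F (γ t)) (D := 4 * Dv F v x)
    (by
      filter_upwards [hγ] with t ht
      have := Dv_curve (df (γ t) ht.1) ht.2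
      rwa [hDf (γ t) ht.1] at this)
    (by
      have h1 : DifferentiableAt ℝ F (γ 0) := by rw [h0]; exact dF
      have := (Dv_curve h1 hcurve0).const_mul 4
      rwa [h0] at this)
    (by
      filter_upwards [hγ] with t ht
      have h1 : f (γ 0) = 0 := by
        rw [h0, hf]
        simp only
        rw [hsq]; simp
      rw [h1]
      exact S.J2a_nonneg R c ht.1)
    (by
      simp only [h0, hF, hlam]
      unfold g bil; simp)
  linarith

/-! ## b2:J2a  nilpotent points of rank one, pointwise -/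
theorem J2_point (hNC : S.NC) (R : Roots S) {x : E4} (hx : x ≠ 0) {c : ℝ}
    (h : (S.L x - c • (1 : M3)) * (S.L x - c • (1 : M3)) = 0) :
    ∃ (ε : ℝ) (z n e : V3) (β θ : ℝ), (ε = 1 ∨ ε = -1) ∧ NFrame (S.G x) z n e ∧
      S.L x *ᵥ z = c • z ∧ S.L x *ᵥ e = c • e ∧ S.L x *ᵥ n = c • n + ε • z ∧
      S.lam x = β • z ∧ S.Lam x *ᵥ z = θ • z ∧ S.Lam x *ᵥ e = θ • e ∧ β ^ 2 - ε * θ ≠ 0 := by
  have hG := S.symm x hx
  have hlor : Lor (S.G x) := ⟨S.symm x hx, S.det_neg x hx, S.pos x hx⟩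
  -- the roots
  have hR : RR3 (S.L x) c c c := by
    obtain ⟨h1, h2, h3⟩ := J2a_roots (R.fac x hx) h
    have := R.fac x hx
    rwa [h1, h2, h3] at this
  obtain ⟨z₁, n₁, e, C, E, hf, hz, he, hn⟩ := LA_triple hlor (S.selfadj x hx) hR
  have hz0 : z₁ ≠ 0 := by
    rintro rfl
    have := hf.zn
    unfold bil at this
    simp at this
  -- `E = 0`
  have hAz : (S.L x - c • (1 : M3)) *ᵥ z₁ = 0 := by
    rw [sub_mulVec, smul_mulVec, one_mulVec, hz, sub_self]
  have hAe : (S.L x - c • (1 : M3)) *ᵥ e = E • z₁ := by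
    rw [sub_mulVec, smul_mulVec, one_mulVec, he]; abel
  have hAn : (S.L x - c • (1 : M3)) *ᵥ n₁ = C • z₁ + E • e := by
    rw [sub_mulVec, smul_mulVec, one_mulVec, hn]; abel
  have hE : E = 0 := by
    have h1 : ((S.L x - c • (1 : M3)) * (S.L x - c • (1 : M3))) *ᵥ n₁ = (E * E) • z₁ := by
      rw [← mulVec_mulVec, hAn, mulVec_add, mulVec_smul, mulVec_smul, hAz, hAe, smul_zero, zero_add,
        smul_smul]
    rw [h, zero_mulVec] at h1
    rcases smul_eq_zero.1 h1.symm with h2 | h2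
    · exact mul_self_eq_zero.1 h2
    · exact absurd h2 hz0
  subst hE
  rw [zero_smul, add_zero] at he hn
  -- `C ≠ 0`
  have hC : C ≠ 0 := by
    rintro rfl
    apply S.no_scalar hNC R hx c
    apply hf.ext hG
    · rw [hz, smul_mulVec, one_mulVec]
    · rw [hn, smul_mulVec, one_mulVec, zero_smul, add_zero]
    · rw [he, smul_mulVec, one_mulVec]
  -- rescaling
  set r : ℝ := Real.sqrt |C| with hr
  have hr0 : 0 < r := Real.sqrt_pos.2 (abs_pos.2 hC)
  have hrr : r * r = |C| := Real.mul_self_sqrt (abs_nonneg C)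
  set ε : ℝ := C / |C| with hε
  have hε1 : ε = 1 ∨ ε = -1 := by
    rcases lt_or_gt_of_ne hC with h1 | h1
    · right
      rw [hε, abs_of_neg h1]
      field_simp
    · left
      rw [hε, abs_of_pos h1]
      field_simp
  set z : V3 := r • z₁ with hzdef
  set n : V3 := r⁻¹ • n₁ with hndef
  have hf' : NFrame (S.G x) z n e := by
    refine ⟨?_, ?_, ?_, hf.ee, ?_, ?_⟩
    · rw [hzdef, J2a_bil_smul_left, J2a_bil_smul_right, hf.zz]; ring
    · rw [hndef, J2a_bil_smul_left, J2a_bil_smul_right, hf.nn]; ring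
    · rw [hndef, hzdef, J2a_bil_smul_left, J2a_bil_smul_right, hf.zn]
      field_simp
    · rw [hzdef, J2a_bil_smul_left, hf.ze]; ring
    · rw [hndef, J2a_bil_smul_left, hf.ne]; ring
  have hLz : S.L x *ᵥ z = c • z := by
    rw [hzdef, mulVec_smul, hz, smul_comm]
  have hLn : S.L x *ᵥ n = c • n + ε • z := by
    rw [hndef, hzdef, mulVec_smul, hn, smul_add, smul_smul, smul_smul, smul_smul, smul_smul,
      mul_comm r⁻¹ c]
    congr 2
    rw [hε, ← hrr]
    field_simp
  have hz0' : z ≠ 0 := by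
    rw [hzdef]
    exact smul_ne_zero hr0.ne' hz0
  clear_value z n
  -- Lemma A
  have hA := S.lemma_A hNC R hx hz0' hf'.zz hLz
  have hexp := hf'.expand hG (S.lam x)
  set β : ℝ := bil (S.G x) (S.lam x) n with hβ
  set l : ℝ := bil (S.G x) (S.lam x) e with hl
  clear_value β l
  have hA' : bil (S.G x) (S.lam x) z = 0 := hA
  rw [hA', zero_smul, add_zero] at hexp
  have hAz' : (S.L x - c • (1 : M3)) *ᵥ z = 0 := by
    rw [sub_mulVec, smul_mulVec, one_mulVec, hLz, sub_self]
  have hAe' : (S.L x - c • (1 : M3)) *ᵥ e = 0 := by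
    rw [sub_mulVec, smul_mulVec, one_mulVec, he, sub_self]
  have hAn' : (S.L x - c • (1 : M3)) *ᵥ n = ε • z := by
    rw [sub_mulVec, smul_mulVec, one_mulVec, hLn]; abel
  have hlam : (S.L x - c • (1 : M3)) *ᵥ S.lam x = 0 := by
    rw [hexp, mulVec_add, mulVec_smul, mulVec_smul, hAz', hAe', smul_zero, smul_zero, add_zero]
  obtain ⟨θ, hθ⟩ := S.F1 hx hz0' hLz
  -- `l = 0`
  have hl0 : l = 0 := by
    by_contra hne
    set s : ℝ := -(β ^ 2 + ε * θ + 1) / (2 * l ^ 2) with hs
    have hq := S.J2a_hess R c hx h hlam (s • z + n)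
    have g1 : S.g x (S.lam x) (S.lam x) = l ^ 2 := by
      have h1 : S.g x (S.lam x) (S.lam x) = bil (S.G x) (S.lam x) (β • z + l • e) := by
        unfold g; rw [← hexp]
      rw [h1, J2a_bil_add_right, J2a_bil_smul_right, J2a_bil_smul_right, hA', ← hl]
      ring
    have g2 : S.g x (s • z + n) (s • z + n) = 2 * s := by
      unfold g
      rw [J2a_bil_add_left, J2a_bil_add_right, J2a_bil_add_right, J2a_bil_smul_left,
        J2a_bil_smul_left, J2a_bil_smul_right, J2a_bil_smul_right, hf'.zz, hf'.zn,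
        J2a_bil_symm hG n z, hf'.zn, hf'.nn]
      ring
    have g3 : S.g x (s • z + n) (S.lam x) = β := by
      unfold g
      rw [J2a_bil_symm hG, J2a_bil_add_right, J2a_bil_smul_right, hA', ← hβ]
      ring
    have g4 : S.g x (S.Lam x *ᵥ (s • z + n)) ((S.L x - c • (1 : M3)) *ᵥ (s • z + n)) = ε * θ := by
      rw [mulVec_add (S.L x - c • (1 : M3)), mulVec_smul (S.L x - c • (1 : M3)), hAz', smul_zero,
        zero_add, hAn', S.g_Lam hx, mulVec_smul, hθ]
      unfold g
      rw [J2a_bil_smul_right, J2a_bil_smul_right, J2a_bil_add_left, J2a_bil_smul_left, hf'.zz,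
        J2a_bil_symm hG n z, hf'.zn]
      ring
    rw [g1, g2, g3, g4, hs] at hq
    have hl2 : l ^ 2 ≠ 0 := pow_ne_zero 2 hne
    have h5 : l ^ 2 * (2 * (-(β ^ 2 + ε * θ + 1) / (2 * l ^ 2))) = -(β ^ 2 + ε * θ + 1) := by
      field_simp
    rw [h5] at hq
    linarith
  rw [hl0, zero_smul, add_zero] at hexp
  -- `Lam e = θ e`
  have he0 : e ≠ 0 := by
    rintro rfl
    have := hf.ee
    unfold bil at this
    simp at this
  obtain ⟨θ₁, hθ₁⟩ := S.F1 hx he0 he
  have hze0 : z + e ≠ 0 := by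
    intro h1
    have h2 : bil (S.G x) (z + e) n = 0 := by rw [h1]; unfold bil; simp
    rw [J2a_bil_add_left, hf'.zn, J2a_bil_symm hG e n, hf'.ne] at h2
    norm_num at h2
  obtain ⟨θ₂, hθ₂⟩ := S.F1 hx (μ := c) hze0 (by rw [mulVec_add, hLz, he, smul_add])
  rw [mulVec_add, hθ, hθ₁, smul_add] at hθ₂
  have k1 : θ = θ₂ := by
    have h1 := congrArg (fun w => bil (S.G x) w n) hθ₂
    simp only [J2a_bil_add_left, J2a_bil_smul_left, hf'.zn, J2a_bil_symm hG e n, hf'.ne] at h1
    linarith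
  have k2 : θ₁ = θ₂ := by
    have h1 := congrArg (fun w => bil (S.G x) w e) hθ₂
    simp only [J2a_bil_add_left, J2a_bil_smul_left, hf'.ze, hf'.ee] at h1
    linarith
  rw [k2, ← k1] at hθ₁
  exact ⟨ε, z, n, e, β, θ, hε1, hf', hLz, he, hLn, hexp, hθ, hθ₁,
    S.NZ_2J hNC hx hf' hε1 hLz he hLn hexp hθ hθ₁⟩

end Geo

end Pool.Agent.helper68.B2
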